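import Pool.Agent.J6H38.DX.Res
import Pool.Agent.J6H19.NX.Grow

/-!
# Directions of infinite geodesics in planar first-passage percolation

For independent weights with a common continuous law with an exponential moment on the edges of
`ℤ²`, the limit shape has no corners, and almost surely, for every vertex `u`, every infinite
geodesic from `u` is directed in one face of the limit shape, and there is an infinite geodesic from
`u` directed in every face.

No corners: the NX project (`Pool/Agent/*/NX`). Rays directed in a given face: Busemann functions of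
half-planes, with a polynomial rate, and König's lemma; all faces and all geodesics at once: two
rays in opposite faces separate the plane, uniqueness of finite geodesics (the DX project,
`Pool/Agent/*/DX`).

The definitions are in `Pool/Agent/J6H38/DIR/Defs.lean`.
-/

set_option autoImplicit false

namespace Pool.Agent.Results.MP_884284_pr.GeodesicDirections

open Pool.Agent.J6H38.DIR MeasureTheory ProbabilityTheory Filter Topology

/-- Let `μ` be a continuous law on `[0, ∞)` with an exponential moment. There is a norm `G` on the
plane, differentiable outside of the origin, such that for independent weights with law `μ` on the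
edges of `ℤ²`, almost surely `T(0, v) / G(v) → 1`, and for every vertex `u`
* every infinite geodesic from `u` is directed in a face of the unit ball of `G`;
* for every unit vector `x` there is an infinite geodesic from `u` directed in the face of the
  direction `x`;
* if the face consists of the direction `x` only, this geodesic has the asymptotic direction `x`;
* if every face consists of one direction only, then every infinite geodesic has an asymptotic
  direction.
The set of the directions `x` with a face of one direction is uncountable. -/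
theorem _root_.Pool.Agent.Results.MP_884284_pr.GeodesicDirections.result
    (μ : Measure ℝ) [IsProbabilityMeasure μ] [NullSingletonClass μ]
    (h0 : μ (Set.Iio 0) = 0)
    (hexp : ∃ β : ℝ, 0 < β ∧ Integrable (fun r => Real.exp (β * r)) μ) :
    ∃ G : (Fin 2 → ℝ) → ℝ, (∀ x, x ≠ 0 → 0 < G x) ∧
      (∀ (s : ℝ) (x : Fin 2 → ℝ), G (s • x) = |s| * G x) ∧
      (∀ x y, G (x + y) ≤ G x + G y) ∧
      (∀ x, x ≠ 0 → DifferentiableAt ℝ G x) ∧
      ¬ {x : Fin 2 → ℝ | len x = 1 ∧ face G x = {x}}.Countable ∧
      ∀ (Ω : Type) (mΩ : MeasurableSpace Ω) (P : Measure Ω), IsProbabilityMeasure P →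
      ∀ (t : Sym2 (Fin 2 → ℤ) → Ω → ℝ), (∀ e, Measurable (t e)) →
        iIndepFun (fun e : {e : Sym2 (Fin 2 → ℤ) //
          ∃ x y : Fin 2 → ℤ, e = s(x, y) ∧ ∑ i, |x i - y i| = 1} => t e.1) P →
        (∀ x y : Fin 2 → ℤ, ∑ i, |x i - y i| = 1 → Measure.map (t s(x, y)) P = μ) →
        ∀ᵐ ω ∂P,
          Tendsto (fun v : Fin 2 → ℤ => passage (fun e => t e ω) 0 v / G (toR v)) cofinite (𝓝 1) ∧
          ∀ u : Fin 2 → ℤ,
            (∀ γ : ℕ → Fin 2 → ℤ, IsGeod (fun e => t e ω) u γ →
              ∃ x : Fin 2 → ℝ, len x = 1 ∧ DirectedIn γ (face G x)) ∧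
            (∀ x : Fin 2 → ℝ, len x = 1 →
              ∃ γ : ℕ → Fin 2 → ℤ, IsGeod (fun e => t e ω) u γ ∧ DirectedIn γ (face G x)) ∧
            (∀ x : Fin 2 → ℝ, len x = 1 → face G x = {x} →
              ∃ γ : ℕ → Fin 2 → ℤ, IsGeod (fun e => t e ω) u γ ∧ HasDirection γ x) ∧
            ((∀ x : Fin 2 → ℝ, len x = 1 → face G x = {x}) →
              ∀ γ : ℕ → Fin 2 → ℤ, IsGeod (fun e => t e ω) u γ →
                ∃ x : Fin 2 → ℝ, len x = 1 ∧ HasDirection γ x) :=
  Pool.Agent.J6H38.DX.res Pool.Agent.J6H19.NX.grow μ h0 hexp

end Pool.Agent.Results.MP_884284_pr.GeodesicDirections
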